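import Mathlib
import Pool.Agent.W25.UB.Stm4
import Pool.Agent.W59.GB.Cls

/-! # Arbitrary classes of integers: a difference which is a gap between consecutive primes -/

set_option autoImplicit false

namespace Pool.Agent.U403.Dif

open Finset Filter
open Pool.Agent.W59.GB Pool.Agent.H947R3.GM Pool.Agent.W25.UB

/-- `d` is the gap after many primes `≡ a (mod q)` -/
def GapM (q a : ℕ) (d : ℤ) : Prop := ∀ η : ℝ, 0 < η → ∃ᶠ x : ℝ in atTop,
  x ^ (1 - η) ≤ ({n : ℕ | (Nat.nth Nat.Prime n : ℝ) ≤ x ∧ Nat.nth Nat.Prime n ≡ a [MOD q] ∧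
    (Nat.nth Nat.Prime (n + 1) : ℤ) - Nat.nth Nat.Prime n = d}.ncard : ℝ)

/-- a residue class avoided by a set with few residues -/
lemma avoid {p : ℕ} (hp : p.Prime) (S : Finset ℤ) (h : (S.image (fun x : ℤ => (x : ZMod p))).card < p) :
    ∃ c : ℤ, ∀ x ∈ S, ¬ (p : ℤ) ∣ x - c := by
  have hne : NeZero p := ⟨hp.ne_zero⟩
  have h1 : (S.image (fun x : ℤ => (x : ZMod p))).card < (univ : Finset (ZMod p)).card := by
    rw [card_univ, ZMod.card]
    exact h
  obtain ⟨c, _, hc⟩ := exists_mem_notMem_of_card_lt_card h1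
  refine ⟨(c.val : ℤ), fun x hx hd => hc ?_⟩
  rw [mem_image]
  refine ⟨x, hx, ?_⟩
  have h2 := (ZMod.intCast_zmod_eq_zero_iff_dvd (x - (c.val : ℤ)) p).2 hd
  push_cast at h2
  rw [ZMod.natCast_zmod_val] at h2
  exact sub_eq_zero.1 h2

/-- sub-boxes with constant residues in each class -/
lemma residues {T K Q : ℕ} (hQ : 0 < Q) (A : Fin T → Fin (K * Q) → ℤ) :
    ∃ e : Fin T → Fin K → Fin (K * Q), (∀ g, Function.Injective (e g)) ∧
      ∀ g i j, (Q : ℤ) ∣ A g (e g i) - A g (e g j) := by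
  have hne : NeZero Q := ⟨hQ.ne'⟩
  have h : ∀ g, ∃ e : Fin K → Fin (K * Q), Function.Injective e ∧
      ∀ i j, (Q : ℤ) ∣ A g (e i) - A g (e j) := by
    intro g
    classical
    obtain ⟨ρ, -, hρ⟩ := exists_le_card_fiber_of_mul_le_card_of_maps_to (s := (univ : Finset (Fin (K * Q))))
      (t := (univ : Finset (ZMod Q))) (f := fun i => ((A g i : ℤ) : ZMod Q)) (n := K)
      (fun _ _ => mem_univ _) univ_nonempty (by
        rw [card_univ, card_univ, ZMod.card, Fintype.card_fin, mul_comm])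
    obtain ⟨s, hs, hsc⟩ := exists_subset_card_eq hρ
    refine ⟨fun i => s.orderEmbOfFin hsc i, (s.orderEmbOfFin hsc).injective, fun i j => ?_⟩
    have h1 := (mem_filter.1 (hs (s.orderEmbOfFin_mem hsc i))).2
    have h2 := (mem_filter.1 (hs (s.orderEmbOfFin_mem hsc j))).2
    rw [← ZMod.intCast_zmod_eq_zero_iff_dvd]
    push_cast
    rw [h1, h2, sub_self]
  choose e he using h
  exact ⟨e, fun g => (he g).1, fun g => (he g).2⟩

/-- four classes which miss a residue class modulo `3` -/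
theorem hit4 (h1 : St_C1a) (q a : ℕ) (hq : 0 < q) (h2 : 2 ∣ q) (hsq : Squarefree q) (ha : a.Coprime q) :
    ∃ K : ℕ, 1 ≤ K ∧ ∀ (A : Fin 4 → Fin K → ℤ) (r : ℤ),
      Function.Injective (fun x : Fin 4 × Fin K => A x.1 x.2) →
      (∀ g i, (q : ℤ) ∣ A g i - r) → (3 ∣ q ∨ ∃ c : ℤ, ∀ g i, ¬ (3 : ℤ) ∣ A g i - c) →
      ∃ g g' i i', g ≠ g' ∧ A g i < A g' i' ∧ GapM q a (A g' i' - A g i) := by
  obtain ⟨K, hK, H⟩ := h1 q a hq h2 hsq ha
  obtain ⟨Q, hQ⟩ : ∃ Q : ℕ, Q = (4 * K).factorial := ⟨_, rfl⟩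
  have hQ0 : 0 < Q := by rw [hQ]; exact Nat.factorial_pos _
  refine ⟨K * Q, Nat.mul_pos (by omega) hQ0, fun A r hinj hr h3 => ?_⟩
  obtain ⟨e, he, hres⟩ := residues hQ0 A
  obtain ⟨B, hB⟩ : ∃ B : Fin 4 → Fin K → ℤ, B = fun g i => A g (e g i) := ⟨_, rfl⟩
  have hBr : ∀ g i, (q : ℤ) ∣ B g i - r := by
    intro g i
    rw [hB]
    exact hr g _
  obtain ⟨M, hM⟩ : ∃ M : ℕ, ∀ g i, -(M : ℤ) ≤ B g i - r := by
    refine ⟨∑ x : Fin 4 × Fin K, (B x.1 x.2 - r).natAbs, fun g i => ?_⟩
    have h4 : (B g i - r).natAbs ≤ ∑ x : Fin 4 × Fin K, (B x.1 x.2 - r).natAbs :=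
      single_le_sum (f := fun x : Fin 4 × Fin K => (B x.1 x.2 - r).natAbs) (fun _ _ => Nat.zero_le _)
        (mem_univ (g, i))
    omega
  obtain ⟨m, hm⟩ : ∃ m : ℤ, m = r - q * M := ⟨_, rfl⟩
  have hq1 : (1 : ℤ) ≤ q := by exact_mod_cast hq
  have hex : ∀ g i, ∃ h : ℕ, (q : ℤ) * h = B g i - m := by
    intro g i
    have h5 : (q : ℤ) ∣ B g i - m := by
      have : B g i - m = (B g i - r) + q * M := by rw [hm]; ring
      rw [this]
      exact dvd_add (hBr g i) (dvd_mul_right _ _)
    have h6 : 0 ≤ B g i - m := by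
      have h7 := hM g i
      have h8 : (M : ℤ) ≤ q * M := le_mul_of_one_le_left (by positivity) hq1
      rw [hm]
      linarith
    obtain ⟨k, hk⟩ := h5
    have hk0 : 0 ≤ k := by
      by_contra hneg
      push Not at hneg
      have : (q : ℤ) * k < 0 := mul_neg_of_pos_of_neg (by linarith) hneg
      linarith
    refine ⟨k.toNat, ?_⟩
    rw [Int.toNat_of_nonneg hk0, hk]
  choose Hf hHf using hex
  have hBinj : Function.Injective (fun x : Fin 4 × Fin K => B x.1 x.2) := by
    rintro ⟨g, i⟩ ⟨g', i'⟩ h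
    rw [hB] at h
    have h5 := hinj (a₁ := (g, e g i)) (a₂ := (g', e g' i')) h
    simp only [Prod.mk.injEq] at h5
    obtain ⟨h6, h7⟩ := h5
    subst h6
    rw [he g h7]
  have hadm : AdmN q Hf := by
    refine ⟨?_, ?_⟩
    · rintro ⟨g, i⟩ ⟨g', i'⟩ h
      apply hBinj
      simp only at h ⊢
      have h5 := hHf g i
      have h6 := hHf g' i'
      rw [h] at h5
      linarith
    · intro p hp hpq
      obtain ⟨c, hc⟩ : ∃ c : ℤ, ∀ g i, ¬ (p : ℤ) ∣ B g i - c := by
        by_cases hp3 : p = 3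
        · rcases h3 with h3 | ⟨c, hc⟩
          · exact absurd h3 (by rw [← hp3]; exact hpq)
          · refine ⟨c, fun g i => ?_⟩
            rw [hp3, hB]
            exact_mod_cast hc g _
        · have hp2 : p ≠ 2 := fun h => hpq (by rw [h]; exact h2)
          have hp5 : 5 ≤ p := by
            have h5 := hp.two_le
            have h6 : p ≠ 4 := by
              rintro rfl
              exact absurd hp (by norm_num)
            omega
          obtain ⟨c, hc⟩ := avoid hp (univ.image (fun x : Fin 4 × Fin K => B x.1 x.2)) (by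
            by_cases hpK : p ≤ 4 * K
            · have hpQ : (p : ℤ) ∣ Q := by
                rw [hQ]
                exact Int.natCast_dvd_natCast.2 ((hp.dvd_factorial).2 hpK)
              have hsub : (univ.image (fun x : Fin 4 × Fin K => B x.1 x.2)).image (fun x : ℤ => (x : ZMod p)) ⊆
                  (univ : Finset (Fin 4)).image (fun g => ((B g ⟨0, by omega⟩ : ℤ) : ZMod p)) := by
                intro y hy
                rw [mem_image] at hy
                obtain ⟨x, hx, rfl⟩ := hy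
                rw [mem_image] at hx
                obtain ⟨⟨g, i⟩, -, rfl⟩ := hx
                rw [mem_image]
                refine ⟨g, mem_univ _, ?_⟩
                have h5 := hres g ⟨0, by omega⟩ i
                have h6 := hpQ.trans h5
                rw [← ZMod.intCast_zmod_eq_zero_iff_dvd] at h6
                push_cast at h6
                rw [hB]
                exact sub_eq_zero.1 h6
              have h5 := (card_le_card hsub).trans card_image_le
              rw [card_univ, Fintype.card_fin] at h5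
              omega
            · push Not at hpK
              have h5 : ((univ.image (fun x : Fin 4 × Fin K => B x.1 x.2)).image
                  (fun x : ℤ => (x : ZMod p))).card ≤ 4 * K := by
                refine card_image_le.trans (card_image_le.trans ?_)
                rw [card_univ, Fintype.card_prod, Fintype.card_fin, Fintype.card_fin]
              omega)
          exact ⟨c, fun g i => hc _ (mem_image.2 ⟨(g, i), mem_univ _, rfl⟩)⟩
      have hcop : IsCoprime (q : ℤ) (p : ℤ) := by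
        rw [Nat.isCoprime_iff_coprime]
        exact ((Nat.Prime.coprime_iff_not_dvd hp).2 hpq).symm
      obtain ⟨w, u, hwu⟩ := hcop
      refine ⟨w * (m - c), fun g i hd => hc g i ?_⟩
      have h5 := hd.mul_left (q : ℤ)
      have h6 := hHf g i
      have e1 : B g i - c = q * (w * (m - c) + Hf g i) + (u * (m - c)) * p := by
        have : (q : ℤ) * (w * (m - c) + Hf g i) = (w * q) * (m - c) + q * Hf g i := by ring
        rw [this, h6]
        have : w * q = 1 - u * p := by linarith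
        rw [this]
        ring
      rw [e1]
      exact dvd_add h5 (dvd_mul_left _ _)
  obtain ⟨g, g', i, i', hgg, hlt, hmem⟩ := H Hf hadm
  have h5 := hHf g i
  have h6 := hHf g' i'
  have hlt' : (Hf g i : ℤ) < Hf g' i' := by exact_mod_cast hlt
  have hBlt : B g i < B g' i' := by
    have := mul_lt_mul_of_pos_left hlt' (by linarith : (0 : ℤ) < q)
    linarith
  refine ⟨g, g', e g i, e g' i', hgg, ?_, ?_⟩
  · rw [hB] at hBlt
    exact hBlt
  · intro η hη
    have h7 := nthB hmem η hη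
    refine h7.mono fun x hx => hx.trans (le_of_eq ?_)
    congr 2
    ext n
    have hcast : ((q * (Hf g' i' - Hf g i) : ℕ) : ℤ) = A g' (e g' i') - A g (e g i) := by
      rw [Nat.cast_mul, Nat.cast_sub hlt.le, mul_sub, h5, h6, hB]
      ring
    constructor
    · rintro ⟨k1, k2, k3⟩
      refine ⟨k1, k2, ?_⟩
      rw [← hcast, k3]
      push_cast
      ring
    · rintro ⟨k1, k2, k3⟩
      refine ⟨k1, k2, ?_⟩
      rw [← hcast] at k3
      have : (Nat.nth Nat.Prime (n + 1) : ℤ) = ((Nat.nth Nat.Prime n + q * (Hf g' i' - Hf g i) : ℕ) : ℤ) := by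
        rw [Nat.cast_add]
        linarith
      exact_mod_cast this

/-- four of five residues modulo `3` miss a residue -/
lemma five (ρ : Fin 5 → ZMod 3) : ∃ c : ZMod 3, 4 ≤ (univ.filter (fun g => ρ g ≠ c)).card := by
  by_contra hcon
  push Not at hcon
  have h1 : ∀ c : ZMod 3, (univ.filter (fun g => ρ g = c)).card + (univ.filter (fun g => ρ g ≠ c)).card = 5 := by
    intro c
    have := card_filter_add_card_filter_not (s := (univ : Finset (Fin 5))) (fun g => ρ g = c)
    rw [card_univ, Fintype.card_fin] at this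
    exact this
  have h2 : ∑ c : ZMod 3, (univ.filter (fun g => ρ g = c)).card = 5 := by
    have := card_eq_sum_card_fiberwise (s := (univ : Finset (Fin 5))) (t := (univ : Finset (ZMod 3))) (f := ρ)
      (fun _ _ => mem_coe.2 (mem_univ _))
    rw [card_univ, Fintype.card_fin] at this
    exact this.symm
  have h3 : ∑ c : ZMod 3, 2 ≤ ∑ c : ZMod 3, (univ.filter (fun g => ρ g = c)).card := by
    refine sum_le_sum fun c _ => ?_
    have h4 := h1 c
    have h5 := hcon c
    omega
  rw [h2, sum_const, card_univ, ZMod.card] at h3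
  norm_num at h3

/-- five classes -/
theorem hit5 (h1 : St_C1a) (q a : ℕ) (hq : 0 < q) (h2 : 2 ∣ q) (hsq : Squarefree q) (ha : a.Coprime q) :
    ∃ K : ℕ, 1 ≤ K ∧ ∀ (A : Fin 5 → Fin K → ℤ) (r : ℤ),
      Function.Injective (fun x : Fin 5 × Fin K => A x.1 x.2) →
      (∀ g i, (q : ℤ) ∣ A g i - r) →
      ∃ g g' i i', g ≠ g' ∧ A g i < A g' i' ∧ GapM q a (A g' i' - A g i) := by
  obtain ⟨K, hK, H⟩ := hit4 h1 q a hq h2 hsq ha
  refine ⟨K * 3, by omega, fun A r hinj hr => ?_⟩
  obtain ⟨e, he, hres⟩ := residues (Q := 3) (by norm_num) A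
  obtain ⟨c, hc⟩ := five (fun g => ((A g (e g ⟨0, by omega⟩) : ℤ) : ZMod 3))
  obtain ⟨s, hs, hsc⟩ := exists_subset_card_eq hc
  obtain ⟨φ, hφ⟩ : ∃ φ : Fin 4 → Fin 5, φ = fun g => s.orderEmbOfFin hsc g := ⟨_, rfl⟩
  have hφi : Function.Injective φ := by rw [hφ]; exact (s.orderEmbOfFin hsc).injective
  have hφc : ∀ g, ((A (φ g) (e (φ g) ⟨0, by omega⟩) : ℤ) : ZMod 3) ≠ c := by
    intro g
    have := (mem_filter.1 (hs (s.orderEmbOfFin_mem hsc g))).2
    rw [hφ]
    exact this
  obtain ⟨g, g', i, i', hgg, hlt, hgap⟩ := H (fun g i => A (φ g) (e (φ g) i)) r (by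
    rintro ⟨g, i⟩ ⟨g', i'⟩ h
    have h5 := hinj (a₁ := (φ g, e (φ g) i)) (a₂ := (φ g', e (φ g') i')) h
    simp only [Prod.mk.injEq] at h5
    obtain ⟨h6, h7⟩ := h5
    have h8 := hφi h6
    subst h8
    rw [he _ h7]) (fun g i => hr _ _) (Or.inr ⟨(c.val : ℤ), fun g i hd => hφc g (by
      have h5 := hres (φ g) ⟨0, by omega⟩ i
      have h6 := dvd_add h5 hd
      have e1 : A (φ g) (e (φ g) ⟨0, by omega⟩) - A (φ g) (e (φ g) i) + (A (φ g) (e (φ g) i) - (c.val : ℤ)) =
          A (φ g) (e (φ g) ⟨0, by omega⟩) - (c.val : ℤ) := by ring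
      rw [e1] at h6
      have h7 := (ZMod.intCast_zmod_eq_zero_iff_dvd _ 3).2 h6
      push_cast at h7
      rw [ZMod.natCast_zmod_val] at h7
      exact sub_eq_zero.1 h7)⟩)
  exact ⟨φ g, φ g', _, _, fun h => hgg (hφi h), hlt, hgap⟩

end Pool.Agent.U403.Dif
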