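import Mathlib

/-! # Summation over the residue classes -/

set_option autoImplicit false

namespace Pool.Agent.U403.Dif

open Finset

/-- the relation between `x` and `y` -/
def Rel (P : ℤ → Prop) (x y : ℤ) : Prop := (x < y ∧ P (y - x)) ∨ (y < x ∧ P (x - y))

lemma Rel.symm {P : ℤ → Prop} {x y : ℤ} (h : Rel P x y) : Rel P y x := Or.symm h

open Classical in
/-- the pairs in one residue class -/
theorem sum_classes (q : ℕ) (hq : 0 < q) (κ C δ : ℝ) (hκ : 0 ≤ κ) (hC : 0 < C) (hδ1 : δ ≤ 1)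
    (P : ℤ → Prop) (A : Finset ℤ)
    (h : ∀ ρ ∈ Ico (0 : ℤ) q, κ * ((A.filter (fun x => x % q = ρ)).card : ℝ) ^ 2 -
      C * ((A.filter (fun x => x % q = ρ)).card : ℝ) ^ (2 - δ) ≤
      ((((A.filter (fun x => x % q = ρ)) ×ˢ (A.filter (fun x => x % q = ρ))).filter
        (fun x => x.1 ≠ x.2 ∧ Rel P x.1 x.2)).card : ℝ)) :
    κ * (((A ×ˢ A).filter (fun z => z.1 < z.2 ∧ (q : ℤ) ∣ z.2 - z.1)).card : ℝ) -
      C * q * (A.card : ℝ) ^ (2 - δ) ≤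
      (((A ×ˢ A).filter (fun z => (z.1 < z.2 ∧ (q : ℤ) ∣ z.2 - z.1) ∧ P (z.2 - z.1))).card : ℝ) := by
  have hq0 : (0 : ℤ) < q := by exact_mod_cast hq
  have hmod : ∀ x y : ℤ, (q : ℤ) ∣ x - y ↔ y % q = x % q := by
    intro x y
    exact (Int.modEq_iff_dvd (n := (q : ℤ)) (a := y) (b := x)).symm
  -- all pairs in one class
  have e1 : ∑ ρ ∈ Ico (0 : ℤ) q, (A.filter (fun x => x % q = ρ)).card ^ 2 =
      ((A ×ˢ A).filter (fun z => (q : ℤ) ∣ z.2 - z.1)).card := by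
    rw [card_eq_sum_card_fiberwise (s := (A ×ˢ A).filter (fun z => (q : ℤ) ∣ z.2 - z.1))
      (t := Ico (0 : ℤ) (q : ℤ)) (f := fun z : ℤ × ℤ => z.1 % (q : ℤ)) (fun z _ => by
        rw [mem_coe, mem_Ico]
        exact ⟨Int.emod_nonneg _ hq0.ne', Int.emod_lt_of_pos _ hq0⟩)]
    refine sum_congr rfl fun ρ _ => ?_
    rw [pow_two, ← card_product]
    congr 1
    ext z
    simp only [mem_filter, mem_product]
    rw [hmod]
    constructor
    · rintro ⟨⟨k1, k2⟩, k3, k4⟩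
      exact ⟨⟨⟨k1, k3⟩, k2.trans k4.symm⟩, k2⟩
    · rintro ⟨⟨⟨k1, k3⟩, k2⟩, k4⟩
      exact ⟨⟨k1, k4⟩, k3, k2.symm.trans k4⟩
  have e2 : ∑ ρ ∈ Ico (0 : ℤ) q, (((A.filter (fun x => x % q = ρ)) ×ˢ (A.filter (fun x => x % q = ρ))).filter
        (fun x => x.1 ≠ x.2 ∧ Rel P x.1 x.2)).card =
      ((A ×ˢ A).filter (fun z => (q : ℤ) ∣ z.2 - z.1 ∧ z.1 ≠ z.2 ∧ Rel P z.1 z.2)).card := by
    rw [card_eq_sum_card_fiberwise (s := (A ×ˢ A).filter (fun z => (q : ℤ) ∣ z.2 - z.1 ∧ z.1 ≠ z.2 ∧ Rel P z.1 z.2))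
      (t := Ico (0 : ℤ) (q : ℤ)) (f := fun z : ℤ × ℤ => z.1 % (q : ℤ)) (fun z _ => by
        rw [mem_coe, mem_Ico]
        exact ⟨Int.emod_nonneg _ hq0.ne', Int.emod_lt_of_pos _ hq0⟩)]
    refine sum_congr rfl fun ρ _ => ?_
    congr 1
    ext z
    simp only [mem_filter, mem_product]
    rw [hmod]
    constructor
    · rintro ⟨⟨⟨k1, k2⟩, k3, k4⟩, k5, k6⟩
      exact ⟨⟨⟨k1, k3⟩, k2.trans k4.symm, k5, k6⟩, k2⟩
    · rintro ⟨⟨⟨k1, k3⟩, k2, k5, k6⟩, k4⟩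
      exact ⟨⟨⟨k1, k4⟩, k3, k2.symm.trans k4⟩, k5, k6⟩
  -- ordered and unordered pairs
  obtain ⟨Pr, hPr⟩ : ∃ Pr : Finset (ℤ × ℤ), Pr = (A ×ˢ A).filter (fun z => z.1 < z.2 ∧ (q : ℤ) ∣ z.2 - z.1) :=
    ⟨_, rfl⟩
  obtain ⟨Gd, hGd⟩ : ∃ Gd : Finset (ℤ × ℤ), Gd = (A ×ˢ A).filter (fun z => (z.1 < z.2 ∧ (q : ℤ) ∣ z.2 - z.1) ∧
    P (z.2 - z.1)) := ⟨_, rfl⟩
  have f1 : 2 * Pr.card ≤ ((A ×ˢ A).filter (fun z => (q : ℤ) ∣ z.2 - z.1)).card := by
    have hd : Disjoint Pr (Pr.image Prod.swap) := by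
      rw [disjoint_left]
      rintro ⟨x, y⟩ hz hz2
      rw [mem_image] at hz2
      obtain ⟨⟨x', y'⟩, h5, h6⟩ := hz2
      rw [hPr, mem_filter] at hz h5
      simp only [Prod.swap_prod_mk, Prod.mk.injEq] at h6
      have h7 := hz.2.1
      have h8 := h5.2.1
      simp only at h7 h8
      omega
    have h5 : (Pr.image Prod.swap).card = Pr.card := card_image_of_injective _ Prod.swap_injective
    have h6 : 2 * Pr.card = (Pr ∪ Pr.image Prod.swap).card := by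
      rw [card_union_of_disjoint hd, h5]
      ring
    rw [h6]
    apply card_le_card
    intro z hz
    rw [mem_union, mem_image] at hz
    rcases hz with hz | ⟨w, hw, rfl⟩
    · rw [hPr, mem_filter] at hz
      rw [mem_filter]
      exact ⟨hz.1, hz.2.2⟩
    · rw [hPr, mem_filter, mem_product] at hw
      rw [mem_filter, mem_product]
      refine ⟨⟨hw.1.2, hw.1.1⟩, ?_⟩
      show (q : ℤ) ∣ w.1 - w.2
      rw [← neg_sub, dvd_neg]
      exact hw.2.2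
  have f2 : ((A ×ˢ A).filter (fun z => (q : ℤ) ∣ z.2 - z.1 ∧ z.1 ≠ z.2 ∧ Rel P z.1 z.2)).card ≤ 2 * Gd.card := by
    have h5 : (Gd.image Prod.swap).card = Gd.card := card_image_of_injective _ Prod.swap_injective
    have h6 := card_union_le Gd (Gd.image Prod.swap)
    rw [h5, ← two_mul] at h6
    refine (card_le_card ?_).trans h6
    rintro ⟨x, y⟩ hz
    rw [mem_filter, mem_product] at hz
    obtain ⟨⟨k1, k2⟩, k3, k4, k5⟩ := hz
    simp only at k1 k2 k3 k4 k5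
    rw [mem_union, mem_image]
    rcases k5 with k5 | k5
    · left
      rw [hGd, mem_filter, mem_product]
      exact ⟨⟨k1, k2⟩, ⟨k5.1, k3⟩, k5.2⟩
    · right
      refine ⟨(y, x), ?_, rfl⟩
      rw [hGd, mem_filter, mem_product]
      refine ⟨⟨k2, k1⟩, ⟨k5.1, ?_⟩, k5.2⟩
      show (q : ℤ) ∣ x - y
      rw [← neg_sub, dvd_neg]
      exact k3
  -- summation
  have g1 := sum_le_sum h
  rw [sum_sub_distrib, ← mul_sum, ← mul_sum, ← Nat.cast_sum, e2] at g1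
  have g2 : ∑ ρ ∈ Ico (0 : ℤ) q, ((A.filter (fun x => x % q = ρ)).card : ℝ) ^ 2 =
      (((A ×ˢ A).filter (fun z => (q : ℤ) ∣ z.2 - z.1)).card : ℝ) := by
    rw [← e1]
    push_cast
    rfl
  rw [g2] at g1
  have g3 : ∑ ρ ∈ Ico (0 : ℤ) q, ((A.filter (fun x => x % q = ρ)).card : ℝ) ^ (2 - δ) ≤
      q * (A.card : ℝ) ^ (2 - δ) := by
    calc ∑ ρ ∈ Ico (0 : ℤ) q, ((A.filter (fun x => x % q = ρ)).card : ℝ) ^ (2 - δ) ≤
        ∑ ρ ∈ Ico (0 : ℤ) q, (A.card : ℝ) ^ (2 - δ) := by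
          refine sum_le_sum fun ρ _ => ?_
          apply Real.rpow_le_rpow (Nat.cast_nonneg _) _ (by linarith)
          exact_mod_cast card_filter_le _ _
      _ = q * (A.card : ℝ) ^ (2 - δ) := by
          rw [sum_const, Int.card_Ico, nsmul_eq_mul]
          simp
  have g4 : (2 : ℝ) * Pr.card ≤ (((A ×ˢ A).filter (fun z => (q : ℤ) ∣ z.2 - z.1)).card : ℝ) := by exact_mod_cast f1
  have g5 : (((A ×ˢ A).filter (fun z => (q : ℤ) ∣ z.2 - z.1 ∧ z.1 ≠ z.2 ∧ Rel P z.1 z.2)).card : ℝ) ≤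
      2 * Gd.card := by exact_mod_cast f2
  rw [← hPr, ← hGd]
  have g6 := mul_le_mul_of_nonneg_left g3 hC.le
  have g7 := mul_le_mul_of_nonneg_left g4 hκ
  have g8 : 0 ≤ C * q * (A.card : ℝ) ^ (2 - δ) := by positivity
  linarith

end Pool.Agent.U403.Dif
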