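import Mathlib
import Pool.Agent.TH899.UG.BoxP
import Pool.Agent.H362R2.CM.Moon

/-! # Good pairs in a set each large box of which contains a good pair -/

set_option autoImplicit false

namespace Pool.Agent.U403.Dif

open Finset Filter
open Pool.Agent.H362R2.CM (clq mem_clq card_clq_one ratio_step moon_moser turan5)
open Pool.Agent.TH899.UG (box_pow)

/-- supersaturated Turan theorem for `K_4` -/
theorem turan4 {α : Type} (V : Finset α) (C : α → α → Prop) (hC : ∀ x y, C x y → C y x)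
    (hV : 0 < V.card) (δ : ℝ) (hδ : 0 < δ)
    (h : (2 / 3 + δ) * (V.card : ℝ) ^ 2 ≤ ((clq V C 2).card : ℝ)) :
    2 / 3 * δ * (V.card : ℝ) ^ 4 ≤ ((clq V C 4).card : ℝ) := by
  set v : ℝ := (V.card : ℝ) with hv
  have hvp : 0 < v := by rw [hv]; exact_mod_cast hV
  have m1 : ((clq V C 1).card : ℝ) = v := by rw [card_clq_one]
  have hm2 : 0 < ((clq V C 2).card : ℝ) := lt_of_lt_of_le (by positivity) h
  have s1 : (1 / 3 + 2 * δ) * v * ((clq V C 2).card : ℝ) ≤ ((clq V C 3).card : ℝ) := by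
    have := ratio_step (a := ((clq V C 1).card : ℝ)) (b := ((clq V C 2).card : ℝ))
      (c := ((clq V C 3).card : ℝ)) (v := v) (k := 1) (r := 2 / 3 + δ) (by rw [m1]; exact hvp) hm2 hvp
      one_pos (by rw [m1]; nlinarith) (by
        have := moon_moser (V := V) hC 1
        push_cast at this
        exact this)
    refine le_trans (le_of_eq ?_) this
    ring
  have hm3 : 0 < ((clq V C 3).card : ℝ) := lt_of_lt_of_le (by positivity) s1
  have s2 : (3 * δ) * v * ((clq V C 3).card : ℝ) ≤ ((clq V C 4).card : ℝ) := by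
    have := ratio_step (a := ((clq V C 2).card : ℝ)) (b := ((clq V C 3).card : ℝ))
      (c := ((clq V C 4).card : ℝ)) (v := v) (k := 2) (r := 1 / 3 + 2 * δ) hm2 hm3 hvp
      two_pos s1 (by
        have := moon_moser (V := V) hC 2
        push_cast at this
        exact this)
    refine le_trans (le_of_eq ?_) this
    ring
  have t2 : 2 / 3 * v ^ 2 ≤ ((clq V C 2).card : ℝ) := by nlinarith [sq_nonneg v]
  have t3 : 2 / 9 * v ^ 3 ≤ ((clq V C 3).card : ℝ) := by
    calc 2 / 9 * v ^ 3 = 1 / 3 * v * (2 / 3 * v ^ 2) := by ring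
      _ ≤ (1 / 3 + 2 * δ) * v * ((clq V C 2).card : ℝ) := by gcongr; linarith
      _ ≤ _ := s1
  calc 2 / 3 * δ * v ^ 4 = (3 * δ) * v * (2 / 9 * v ^ 3) := by ring
    _ ≤ (3 * δ) * v * ((clq V C 3).card : ℝ) := by gcongr
    _ ≤ _ := s2

/-- the supersaturated Turan theorem with density `1 - κ` for `T` vertices -/
def Tur (T : ℕ) (κ c₀ : ℝ) : Prop := ∀ (V : Finset ℤ) (C : ℤ → ℤ → Prop), (∀ x y, C x y → C y x) →
  0 < V.card → ∀ δ : ℝ, 0 < δ → (1 - κ + δ) * (V.card : ℝ) ^ 2 ≤ ((clq V C 2).card : ℝ) →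
  c₀ * δ * (V.card : ℝ) ^ T ≤ ((clq V C T).card : ℝ)

lemma tur4 : Tur 4 (1 / 3) (2 / 3) := by
  intro V C hC hV δ hδ h
  refine turan4 V C hC hV δ hδ (le_trans (le_of_eq ?_) h)
  norm_num

lemma tur5 : Tur 5 (1 / 4) (3 / 8) := by
  intro V C hC hV δ hδ h
  refine turan5 V C hC hV δ hδ (le_trans (le_of_eq ?_) h)
  norm_num

/-- each box of `T` classes of `K` elements of `V` contains a good pair of elements of different classes -/
def Hit (T K : ℕ) (G : ℤ → ℤ → Prop) (V : Finset ℤ) : Prop := ∀ A : Fin T → Fin K → ℤ, (∀ g i, A g i ∈ V) →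
  Function.Injective (fun x : Fin T × Fin K => A x.1 x.2) → ∃ g g' i i', g ≠ g' ∧ G (A g i) (A g' i')

open Classical in
/-- **many good pairs** -/
theorem many (T K : ℕ) (κ c₀ : ℝ) (hc : 0 < c₀) (ht : Tur T κ c₀) : ∃ C δ : ℝ, 0 < C ∧ 0 < δ ∧ δ ≤ 1 ∧
    ∀ (G : ℤ → ℤ → Prop) (V : Finset ℤ), (∀ x y, G x y → G y x) → Hit T K G V →
    κ * (V.card : ℝ) ^ 2 - C * (V.card : ℝ) ^ (2 - δ) ≤
      (((V ×ˢ V).filter (fun x => x.1 ≠ x.2 ∧ G x.1 x.2)).card : ℝ) := by
  obtain ⟨C₀, E, hC₀, hbox⟩ := box_pow K T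
  obtain ⟨E1, hE1⟩ : ∃ E1 : ℕ, E1 = E + 1 := ⟨_, rfl⟩
  obtain ⟨δ, hδ⟩ : ∃ δ : ℝ, δ = 1 / ((E1 : ℝ) + 1) := ⟨_, rfl⟩
  have hδ0 : 0 < δ := by rw [hδ]; positivity
  have hδ1 : δ ≤ 1 := by
    rw [hδ, div_le_one (by positivity)]
    have : (0 : ℝ) ≤ E1 := Nat.cast_nonneg _
    linarith
  refine ⟨1 + (C₀ + 1) / c₀, δ, by positivity, hδ0, hδ1, fun G V hG hit => ?_⟩
  obtain ⟨v, hv⟩ : ∃ v : ℝ, v = (V.card : ℝ) := ⟨_, rfl⟩
  rw [← hv]
  rcases Nat.eq_zero_or_pos V.card with hV0 | hVpos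
  · have hv0 : v = 0 := by rw [hv, hV0]; simp
    rw [hv0, Real.zero_rpow (by linarith)]
    simp
  have hvp : 0 < v := by rw [hv]; exact_mod_cast hVpos
  have hv1 : 1 ≤ v := by rw [hv]; exact_mod_cast hVpos
  by_contra hcon
  have hcon := not_le.1 hcon
  obtain ⟨Cr, hCr⟩ : ∃ Cr : ℤ → ℤ → Prop, Cr = fun x y => x ≠ y ∧ ¬ G x y := ⟨_, rfl⟩
  have hCs : ∀ x y, Cr x y → Cr y x := by
    intro x y h
    rw [hCr] at h ⊢
    exact ⟨h.1.symm, fun h' => h.2 (hG _ _ h')⟩
  have hpw : v ^ (2 - δ) = v ^ (-δ) * v ^ 2 := by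
    have h1 : (2 : ℝ) - δ = -δ + 2 := by ring
    rw [h1, Real.rpow_add hvp]
    norm_num
  have hvδ : 0 < v ^ (-δ) := Real.rpow_pos_of_pos hvp _
  obtain ⟨ε, hε⟩ : ∃ ε : ℝ, ε = (C₀ + 1) * v ^ (-δ) := ⟨_, rfl⟩
  have hε0 : 0 < ε := by rw [hε]; positivity
  -- number of bad pairs
  have h2 : ((clq V Cr 2).card : ℝ) = (((V ×ˢ V).filter (fun x => x.1 ≠ x.2 ∧ ¬ G x.1 x.2)).card : ℝ) := by
    congr 1
    apply Finset.card_bij (fun f _ => (f 0, f 1))
    · intro f hf
      rw [mem_clq] at hf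
      rw [mem_filter, mem_product]
      have := hf.2 0 1 (by decide)
      rw [hCr] at this
      exact ⟨⟨hf.1 0, hf.1 1⟩, this⟩
    · intro f _ f' _ h
      simp only [Prod.mk.injEq] at h
      funext i
      fin_cases i
      · exact h.1
      · exact h.2
    · intro x hx
      rw [mem_filter, mem_product] at hx
      refine ⟨![x.1, x.2], ?_, by simp⟩
      rw [mem_clq]
      have hx2 : Cr x.1 x.2 := by rw [hCr]; exact hx.2
      constructor
      · intro i
        fin_cases i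
        · exact hx.1.1
        · exact hx.1.2
      · intro i j hij
        fin_cases i <;> fin_cases j
        · exact absurd rfl hij
        · exact hx2
        · exact hCs _ _ hx2
        · exact absurd rfl hij
  have h3 : (((V ×ˢ V).filter (fun x => x.1 ≠ x.2 ∧ G x.1 x.2)).card : ℝ) +
      (((V ×ˢ V).filter (fun x => x.1 ≠ x.2 ∧ ¬ G x.1 x.2)).card : ℝ) + v = v ^ 2 := by
    have h4 : ((V ×ˢ V).filter (fun x => x.1 ≠ x.2 ∧ G x.1 x.2)).card +
        ((V ×ˢ V).filter (fun x => x.1 ≠ x.2 ∧ ¬ G x.1 x.2)).card = V.offDiag.card := by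
      rw [← Finset.card_filter_add_card_filter_not (s := V.offDiag) (fun x : ℤ × ℤ => G x.1 x.2)]
      congr 1
      · congr 1
        ext x
        simp only [mem_filter, mem_product, mem_offDiag]
        tauto
      · congr 1
        ext x
        simp only [mem_filter, mem_product, mem_offDiag]
        tauto
    rw [offDiag_card] at h4
    have h5 : V.card ≤ V.card * V.card := Nat.le_mul_of_pos_left _ hVpos
    have h6 : ((V ×ˢ V).filter (fun x => x.1 ≠ x.2 ∧ G x.1 x.2)).card +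
        ((V ×ˢ V).filter (fun x => x.1 ≠ x.2 ∧ ¬ G x.1 x.2)).card + V.card = V.card * V.card := by omega
    rw [hv, pow_two]
    exact_mod_cast h6
  have hvv : v ≤ v ^ (-δ) * v ^ 2 := by
    rw [← hpw]
    calc v = v ^ (1 : ℝ) := (Real.rpow_one v).symm
      _ ≤ v ^ (2 - δ) := Real.rpow_le_rpow_of_exponent_le hv1 (by linarith)
  have h5 := ht V Cr hCs hVpos (ε / c₀) (by positivity) (by
    rw [h2, ← hv]
    rw [hpw] at hcon
    have e : ε / c₀ * v ^ 2 = (C₀ + 1) / c₀ * (v ^ (-δ) * v ^ 2) := by rw [hε]; ring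
    have e2 : (1 - κ + ε / c₀) * v ^ 2 = v ^ 2 - κ * v ^ 2 + ε / c₀ * v ^ 2 := by ring
    rw [e2, e]
    linarith)
  rw [mul_div_cancel₀ _ hc.ne', ← hv] at h5
  have hsub : clq V Cr T ⊆ Fintype.piFinset (fun _ : Fin T => V) := by
    intro f hf
    rw [mem_clq] at hf
    rw [Fintype.mem_piFinset]
    exact hf.1
  have hε1 : ε ≤ 1 := by
    have h6 := card_le_card hsub
    rw [Fintype.card_piFinset_const] at h6
    have h7 : ((clq V Cr T).card : ℝ) ≤ v ^ T := by rw [hv]; exact_mod_cast h6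
    have h8 := h5.trans h7
    have h9 : 0 < v ^ T := by positivity
    by_contra hlt
    push Not at hlt
    nlinarith
  have hsize : C₀ / ε ^ E ≤ v := by
    have h6 : C₀ / ε ^ E ≤ C₀ / ε ^ E1 := by
      apply div_le_div_of_nonneg_left (by linarith) (by positivity)
      rw [hE1, pow_succ]
      exact mul_le_of_le_one_right (by positivity) hε1
    refine h6.trans ?_
    rw [div_le_iff₀ (by positivity)]
    have h7 : ε ^ E1 = (C₀ + 1) ^ E1 * v ^ (-δ * E1) := by
      rw [hε, mul_pow, ← Real.rpow_natCast (v ^ (-δ)), ← Real.rpow_mul hvp.le]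
    have h8 : v * v ^ (-δ * E1) = v ^ δ := by
      calc v * v ^ (-δ * E1) = v ^ (1 : ℝ) * v ^ (-δ * E1) := by rw [Real.rpow_one]
        _ = v ^ (1 + -δ * E1) := (Real.rpow_add hvp _ _).symm
        _ = v ^ δ := by
          congr 1
          rw [hδ]
          field_simp
          ring
    have h9 : 1 ≤ v ^ δ := Real.one_le_rpow hv1 hδ0.le
    have h10 : C₀ ≤ (C₀ + 1) ^ E1 := by
      calc C₀ ≤ C₀ + 1 := by linarith
        _ ≤ (C₀ + 1) ^ E1 := le_self_pow₀ (by linarith) (by omega)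
    calc C₀ ≤ (C₀ + 1) ^ E1 * 1 := by rw [mul_one]; exact h10
      _ ≤ (C₀ + 1) ^ E1 * v ^ δ := by gcongr
      _ = v * ((C₀ + 1) ^ E1 * v ^ (-δ * E1)) := by rw [← h8]; ring
      _ = v * ε ^ E1 := by rw [h7]
  obtain ⟨A, hA1, hA2⟩ := hbox ε hε0 hε1 ℤ (fun _ => V) (fun _ => by rw [← hv]; exact hsize) (clq V Cr T) hsub (by
    rw [prod_const, card_univ, Fintype.card_fin, ← hv]
    exact h5)
  have hcross : ∀ g g' i i', g ≠ g' → Cr (A g i) (A g' i') := by
    intro g g' i i' hgg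
    have h6 := (mem_clq.1 (hA2 (Function.update (fun _ => i) g' i'))).2 g g' hgg
    simp only [Function.update_self, Function.update_of_ne hgg] at h6
    exact h6
  obtain ⟨g, g', i, i', hgg, hgood⟩ := hit A (fun g i => (mem_clq.1 (hA2 (fun _ => i))).1 g) (by
    rintro ⟨g, i⟩ ⟨g', i'⟩ h
    simp only at h
    by_cases hgg : g = g'
    · subst hgg
      rw [hA1 g h]
    · have := hcross g g' i i' hgg
      rw [hCr] at this
      exact absurd h this.1)
  have := hcross g g' i i' hgg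
  rw [hCr] at this
  exact this.2 hgood

end Pool.Agent.U403.Dif
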